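import Mathlib
import Pool.Agent.W401P.CrystStmt
import Pool.Agent.W401P.Shears

/-! Weinstein conjecture, contact forms with a local torus symmetry of any rank whose monodromy is
arbitrary but contains a crystallographic group fixing an integer vector `k`, realised coarsely by a
continuous family of points of the covering: some orbit of the circle with direction `k` is a closed
Reeb orbit. -/

open scoped Topology ContDiff Manifold
open Pool.Agent.H826R2.WStmt Pool.Agent.W401P

namespace Pool.Agent.Results.MP_e3ee0c_gt.CrystallographicMonodromy

universe u v w x

theorem result
    {E : Type u} [NormedAddCommGroup E] [NormedSpace ℝ E] [FiniteDimensional ℝ E]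
    -- a closed manifold `M` with a contact form `α` and its Reeb field `R`
    {M : Type v} [TopologicalSpace M] [ChartedSpace E M] [IsManifold 𝓘(ℝ, E) ∞ M]
    [T2Space M] [CompactSpace M]
    (α : M → Cov E) (hα : IsContact α) (R : M → E) (hR : IsReeb α R)
    -- a regular covering `q : P → M` with deck group `Γ`
    {P : Type w} [TopologicalSpace P] [ChartedSpace E P] [IsManifold 𝓘(ℝ, E) ∞ P]
    [T2Space P] [SigmaCompactSpace P]
    {Γ : Type x} [Group Γ] [MulAction Γ P] (q : P → M) (hq : IsQuotientMap E q Γ)
    -- a locally free action of an `m`-torus on `P` preserving the lifted contact form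
    {m : ℕ} (A : TorusAction (pull (E := E) q α) m)
    -- which is normalised by the deck group; `ρ` is the monodromy representation, which is arbitrary
    (ρ : Γ →* GL (Fin m) ℤ) (hρ : IsMonodromy A.act ρ)
    -- a nonzero integer vector `k` and a group `Δ` of integer matrices fixing `k` which acts
    -- crystallographically on the affine hyperplane of the covectors `b` with `b k = 1`, for instance
    -- the group of all integral shears along `k` (`crystallographic_shears`)
    (k : Fin m → ℤ) (hk : k ≠ 0)
    (Δ : Subgroup (GL (Fin m) ℤ)) (hΔ : Crystallographic Δ k)
    -- a continuous coarsely `Δ`-equivariant map from this hyperplane to `P`, for instance a map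
    -- equivariant up to the torus action under a subgroup with image `Δ` (`coarse_of_equivariant`)
    (D : hyperplane k → P) (hD : Continuous D) (hDΔ : CoarselyEquivariant ρ Δ D) :
    -- the image in `M` of some orbit of the circle with direction `k`, with velocity multiplied by a
    -- constant `1 / a`, is a periodic orbit of the Reeb field, of period `|a|`
    ∃ (x : P) (a : ℝ), a ≠ 0 ∧
      IsPeriodicOrbit R (fun t => q (A.act (fun i => t / a * (k i : ℝ)) x)) |a| :=
  exists_periodic_cryst α hα R hR q hq A ρ hρ k hk Δ hΔ D hD hDΔ

end Pool.Agent.Results.MP_e3ee0c_gt.CrystallographicMonodromy
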