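import Mathlib
import Pool.Agent.W401P.Stmt

/-! Weinstein conjecture: closed Reeb orbits for contact forms with a local torus symmetry of any
rank and with any monodromy, unless for every circle of the torus the covering is, equivariantly for
the deck transformations commuting with the circle, the product of a line and the hypersurface of
points at which the circle is tangent to the contact structure, this hypersurface being noncompact. -/

open scoped Topology ContDiff Manifold
open Pool.Agent.H826R2.WStmt Pool.Agent.W401P

namespace Pool.Agent.Results.MP_e3ee0c_gt.ProductCoverings

universe u v w x

theorem result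
    {E : Type u} [NormedAddCommGroup E] [NormedSpace ℝ E] [FiniteDimensional ℝ E]
    -- a closed manifold `M` with a contact form `α` and its Reeb field `R`
    {M : Type v} [TopologicalSpace M] [ChartedSpace E M] [IsManifold 𝓘(ℝ, E) ∞ M]
    [T2Space M] [CompactSpace M]
    (α : M → Cov E) (hα : IsContact α) (R : M → E) (hR : IsReeb α R)
    -- a regular covering `q : P → M` with deck group `Γ`, `P` connected
    {P : Type w} [TopologicalSpace P] [ChartedSpace E P] [IsManifold 𝓘(ℝ, E) ∞ P]
    [T2Space P] [SigmaCompactSpace P] [ConnectedSpace P]
    {Γ : Type x} [Group Γ] [MulAction Γ P] (q : P → M) (hq : IsQuotientMap E q Γ)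
    -- a locally free action of an `m`-torus on `P` preserving the lifted contact form
    {m : ℕ} (A : TorusAction (pull (E := E) q α) m)
    -- which is normalised by the deck group; the monodromy in `GL(m, ℤ)` is arbitrary
    (hA : Normalises Γ A.act)
    -- for one circle of the torus, `P` is not equivariantly the product of the tangency hypersurface
    -- of the circle with a line, or the tangency hypersurface is compact (for instance empty)
    (k : Fin m → ℤ) (hk : k ≠ 0) (hp : ¬ IsProduct Γ A k ∨ IsCompact (tangency A k)) :
    -- the Reeb flow of `α` on `M` has a periodic orbit
    ∃ (c : ℝ → M) (T : ℝ), IsPeriodicOrbit R c T :=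
  exists_periodic_product α hα R hR q hq A hA k hk hp

end Pool.Agent.Results.MP_e3ee0c_gt.ProductCoverings
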